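import Pool.Agent.R940.HIdxDefs
import Pool.Agent.R940.DFin
import Pool.Agent.Y133.Half.PredSys

/-!
# The effective index law for a system of classes
-/

set_option linter.unusedVariables false
set_option linter.unusedSectionVars false

open CategoryTheory AlgebraicGeometry CategoryTheory.Limits TensorProduct

universe u v

namespace Pool.Agent.R920.PL

open Pool.Agent.H914 Pool.Agent.H447 Pool.Agent.W534 Pool.Agent.Y163 VarClass Obj WeilCohomology
  Module Pool.Agent.R940
open Pool.Agent.Y133.Half (ClassPred)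

variable {k : Type u} [Field k] {𝒱 : VarClass k} {ops : CycleOps 𝒱}
  {W : WeilCohomology.{u, v} ops} {X Y Z U : 𝒱.Obj}

/-- The space of the classes of degree `2 j`. -/
def deg (Q : ClassPred W) (Y : 𝒱.Obj) (j : ℕ) : Submodule W.K (W.H Y) where
  carrier := {c | Q.P Y j c}
  add_mem' := Q.add
  zero_mem' := Q.zero
  smul_mem' := fun r _ h => Q.smul r h

lemma mem_deg {Q : ClassPred W} {j : ℕ} {c : W.H Y} : c ∈ deg Q Y j ↔ Q.P Y j c := Iff.rfl

lemma span_le_deg (Q : ClassPred W) (j : ℕ) : spanCycles W Y j ≤ deg Q Y j := by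
  refine Submodule.span_le.2 ?_
  rintro _ ⟨r, hr, z, hz, rfl⟩
  have : r = j := by exact_mod_cast hr
  subst this
  exact Q.cl hz

/-- The classes in the middle degree of the squares of the powers are stable. -/
lemma stable_deg (Q : ClassPred W) :
    Stable W X (fun n => deg Q (sq X n) ((n + 1) * X.dim)) := by
  intro κ n φ hφ t ht
  induction hφ using Submodule.span_induction with
  | mem f hf =>
    obtain ⟨p, hp, z, hz, rfl⟩ := hf
    rw [corr_apply]
    have h1 : Q.P ((sq X κ).prod (sq X n)) (p + (κ + 1) * X.dim)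
        (W.cl _ z * W.map (fst (sq X κ) (sq X n)) t) :=
      Q.mul (Q.cl hz) (Q.map _ ht)
    refine Q.push (snd (sq X κ) (sq X n)) ?_ h1
    rw [dim_prod]
    have h2 : (p : ℤ) = (sq X κ).dim + ((n : ℤ) - κ) * X.dim := hp
    rw [dim_sq] at h2
    rw [dim_sq, dim_sq]
    zify
    push_cast at h2
    rw [h2]
    ring
  | zero => rw [LinearMap.zero_apply]; exact Submodule.zero_mem _
  | add x y _ _ hx hy => rw [LinearMap.add_apply]; exact Submodule.add_mem _ hx hy
  | smul c x _ hx => rw [LinearMap.smul_apply]; exact Submodule.smul_mem _ _ hx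

/-- If all classes in the middle degree of `U × U` are algebraic, so are all classes on `U`. -/
lemma deg_factor (Q : ClassPred W) {E : U.Cycles} (hE : U.IsCyc 1 E)
    (hE2 : W.tr U (W.cl U E ^ U.dim) ≠ 0)
    (h : ∀ c, Q.P (U.prod U) U.dim c → c ∈ spanCycles W (U.prod U) U.dim) {j : ℕ}
    (hj : j ≤ U.dim) {c : W.H U} (hc : Q.P U j c) : c ∈ spanCycles W U j := by
  obtain ⟨l, hl⟩ := Nat.exists_eq_add_of_le hj
  have hEl : ∀ m : ℕ, Q.P U m (W.cl U E ^ m) := by
    intro m
    rw [← cl_divPow_fund]
    exact Q.cl (divPow_fund_mem hE m)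
  -- recovering the first factor
  have hrec : W.corr (W.map (swap U U) (W.map (fst U U) c *
      W.map (snd U U) (W.cl U E ^ l))) (W.cl U E ^ j) =
      W.tr U (W.cl U E ^ U.dim) • c := by
    rw [corr_swap_tmul (Q.gr hc) (pow_mem_gr hE l), LinearMap.smulRight_apply,
      LinearMap.comp_apply, LinearMap.mulLeft_apply, ← pow_add, show l + j = U.dim by omega]
  have h2 : Q.P (U.prod U) U.dim (W.map (fst U U) c *
      W.map (snd U U) (W.cl U E ^ l)) := by
    have := Q.mul (Q.map (fst U U) hc) (Q.map (snd U U) (hEl l))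
    rwa [← hl] at this
  have h4 := h _ h2
  have h5 : W.corr (W.map (swap U U) (W.map (fst U U) c *
      W.map (snd U U) (W.cl U E ^ l))) ∈ KOp W U U 0 := by
    rw [mem_KOp_iff]
    exact ⟨_, by rw [add_zero]; exact map_span _ h4, rfl⟩
  have h6 : W.cl U E ^ j ∈ (spanS W).T U j := by
    rw [← cl_divPow_fund]
    exact mem_span_cl (divPow_fund_mem hE j)
  have h7 := (spanS W).stable h5 (j' := j) (by ring) h6
  rw [hrec] at h7
  have h8 := Submodule.smul_mem _ (W.tr U (W.cl U E ^ U.dim))⁻¹ h7
  rwa [smul_smul, inv_mul_cancel₀ hE2, one_smul] at h8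

/-- **The effective index law** for a system of classes. -/
theorem pred_law (Q : ClassPred W) (hX : SignStd W X) {D : X.Cycles} (hD : X.IsCyc 1 D)
    (hbig : Big ops X D) :
    (∀ n, 0 < numRank ops (sq X n) ((n + 1) * X.dim) ∧
      numRank ops (sq X n) ((n + 1) * X.dim) ≤ finrank W.K (deg Q (sq X n) ((n + 1) * X.dim)) ∧
      finrank W.K (deg Q (sq X n) ((n + 1) * X.dim)) ≤
        (n + 2) ^ (R940.betti W X ^ 2) * numRank ops (sq X n) ((n + 1) * X.dim)) ∧
    ∀ κ, ((∀ j c, Q.P (pw X κ) j c → c ∈ spanCycles W (pw X κ) j) ∧ HomEqNum W (pw X κ)) ∨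
      NearlyTwice (indexConst (R940.betti W X) κ)
        (fun n => finrank W.K (deg Q (sq X n) ((n + 1) * X.dim)))
        (fun n => numRank ops (sq X n) ((n + 1) * X.dim)) := by
  obtain ⟨hA, hB⟩ := d_law hX hD hbig
  have hpar := par_of_sign hX
  have htr : W.tr X (W.cl X D ^ X.dim) ≠ 0 := hbig.tr hD
  have hH : 0 < finrank W.K (W.H X) := by
    have : Nontrivial (W.H X) := by
      by_contra hcon
      rw [not_nontrivial_iff_subsingleton] at hcon
      apply htr
      rw [Subsingleton.elim (W.cl X D ^ X.dim) 0, map_zero]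
    exact finrank_pos
  have hle : ∀ n, algRank W (sq X n) ((n + 1) * X.dim) ≤
      finrank W.K (deg Q (sq X n) ((n + 1) * X.dim)) := fun n =>
    Submodule.finrank_mono (span_le_deg Q _)
  refine ⟨fun n => ⟨(hA n).1, (hA n).2.1.trans (hle n), ?_⟩, fun κ => ?_⟩
  · have h1 := growth_any hpar n
    have h2 : finrank W.K (deg Q (sq X n) ((n + 1) * X.dim)) ≤ (R940.betti W X ^ 2) ^ (n + 1) := by
      refine (Submodule.finrank_le _).trans (le_of_eq ?_)
      have e := kappa W (pw X n) (pw X n)
      rw [Y163.sq, ← e.finrank_eq, Module.finrank_tensorProduct, finrank_pw, R940.betti]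
      ring
    refine h2.trans ?_
    rw [mul_comm]
    exact h1
  · by_cases hhom : HomEqNum W (pw X κ)
    · by_cases hfail : numRank ops (sq X κ) ((κ + 1) * X.dim) <
          finrank W.K (deg Q (sq X κ) ((κ + 1) * X.dim))
      · right
        intro n hn
        have h1 := index_eff_any (W := W) hpar hH
          (fun n => deg Q (sq X n) ((n + 1) * X.dim)) (stable_deg Q) (κ := κ) hfail hn
        refine le_trans (le_of_eq ?_) h1
        rw [indexConst, R940.betti]
        push_cast
        ring
      · left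
        refine ⟨?_, hhom⟩
        push Not at hfail
        obtain ⟨E, hE, hE2⟩ := exists_big hD htr κ
        have h1 : spanCycles W (sq X κ) (((κ + 1) * X.dim : ℕ) : ℤ) =
            deg Q (sq X κ) ((κ + 1) * X.dim) := by
          refine Submodule.eq_of_le_of_finrank_le (span_le_deg Q _) (hfail.trans ?_)
          exact (hA κ).2.1
        have h2 : ∀ c, Q.P ((pw X κ).prod (pw X κ)) (pw X κ).dim c →
            c ∈ spanCycles W ((pw X κ).prod (pw X κ)) (pw X κ).dim := by
          intro c hc
          rw [dim_pw] at hc ⊢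
          have h3 : c ∈ deg Q (sq X κ) ((κ + 1) * X.dim) := hc
          rw [← h1] at h3
          exact h3
        intro j c hc
        rcases Nat.lt_or_ge (pw X κ).dim j with hlt | hge
        · have h3 := Q.gr hc
          rw [W.gr_eq_bot (pw X κ) _ (by omega)] at h3
          rw [(Submodule.mem_bot _).1 h3]
          exact Submodule.zero_mem _
        · exact deg_factor Q hE hE2 h2 hge hc
    · right
      obtain ⟨hmany, -⟩ := (hB κ).resolve_left hhom
      intro n hn
      have h1 := hmany 0 n hn
      have h2 : (algRank W (sq X n) ((n + 1) * X.dim) : ℝ) ≤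
          finrank W.K (deg Q (sq X n) ((n + 1) * X.dim)) := by exact_mod_cast hle n
      refine le_trans (le_of_eq ?_) (h1.trans h2)
      rw [indexConst]
      push_cast
      ring_nf

end Pool.Agent.R920.PL
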